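import Mathlib

/-!
# A set function of bounded variation which is not a difference of bounded submodular ones

Ground set `ℕ × ℕ`; the `n`-th block consists of the `2n` points `(n, j)`, `j < 2n`. The set
function takes the value `1` on `X` if `X` contains more than half of the points of some block, and
`0` otherwise.
-/

open Finset

namespace Pool.Agent.Results.MP_2db6a9_co.ThresholdBlocks

/-- A set algebra on the ground set `J`: a nonempty family of subsets closed under complements and
finite unions. -/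
structure IsSetAlgebra {J : Type} (B : Set (Set J)) : Prop where
  empty_mem : ∅ ∈ B
  compl_mem : ∀ X ∈ B, Xᶜ ∈ B
  union_mem : ∀ X ∈ B, ∀ Y ∈ B, X ∪ Y ∈ B

/-- increasing set function on the algebra `B` -/
def Increasing {J : Type} (B : Set (Set J)) (φ : Set J → ℝ) : Prop :=
  ∀ X ∈ B, ∀ Y ∈ B, X ⊆ Y → φ X ≤ φ Y

/-- bounded set function on the algebra `B` -/
def Bounded {J : Type} (B : Set (Set J)) (φ : Set J → ℝ) : Prop :=
  ∃ b : ℝ, ∀ X ∈ B, |φ X| ≤ b

/-- submodular set function on the algebra `B` -/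
def Submodular {J : Type} (B : Set (Set J)) (φ : Set J → ℝ) : Prop :=
  ∀ X ∈ B, ∀ Y ∈ B, φ (X ∩ Y) + φ (X ∪ Y) ≤ φ X + φ Y

/-- bounded variation: difference of two increasing set functions -/
def BoundedVariation {J : Type} (B : Set (Set J)) (φ : Set J → ℝ) : Prop :=
  ∃ f g : Set J → ℝ, Increasing B f ∧ Increasing B g ∧ ∀ X ∈ B, φ X = f X - g X

/-! ### Cyclic intervals -/

section cyc

variable (N : ℕ) [NeZero N]

/-- cyclic interval of length `k` starting at `i` -/
def I (i : ZMod N) (k : ℕ) : Finset (ZMod N) := (range k).image fun m : ℕ => i + (m : ZMod N)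

variable {N}

theorem mem_I {i x : ZMod N} {k : ℕ} : x ∈ I N i k ↔ ∃ m < k, i + (m : ZMod N) = x := by
  simp [I]

theorem I_zero (i : ZMod N) : I N i 0 = ∅ := by simp [I]

theorem cast_inj {a b : ℕ} (ha : a < N) (hb : b < N) (h : (a : ZMod N) = b) : a = b := by
  have := (ZMod.natCast_eq_natCast_iff' a b N).mp h
  rwa [Nat.mod_eq_of_lt ha, Nat.mod_eq_of_lt hb] at this

theorem I_full (i : ZMod N) : I N i N = univ := by
  ext x
  simp only [mem_I, mem_univ, iff_true]
  refine ⟨(x - i).val, ZMod.val_lt _, ?_⟩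
  rw [ZMod.natCast_zmod_val]
  ring

theorem card_I (i : ZMod N) {k : ℕ} (hk : k ≤ N) : (I N i k).card = k := by
  rw [I, card_image_of_injOn, card_range]
  intro a ha b hb hab
  simp only [coe_range, Set.mem_Iio] at ha hb
  exact cast_inj (by lia) (by lia) (add_left_cancel hab)

theorem I_union (i : ZMod N) {k : ℕ} (hk : 1 ≤ k) :
    I N i k ∪ I N (i + 1) k = I N i (k + 1) := by
  ext x
  simp only [mem_union, mem_I]
  constructor
  · rintro (⟨m, hm, rfl⟩ | ⟨m, hm, rfl⟩)
    · exact ⟨m, by lia, rfl⟩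
    · exact ⟨m + 1, by lia, by push_cast; ring⟩
  · rintro ⟨m, hm, rfl⟩
    by_cases h : m < k
    · exact Or.inl ⟨m, h, rfl⟩
    · refine Or.inr ⟨m - 1, by lia, ?_⟩
      have : (m : ZMod N) = ((m - 1 : ℕ) : ZMod N) + 1 := by
        rw [← Nat.cast_succ]
        congr 1
        lia
      rw [this]
      ring

theorem I_inter (i : ZMod N) {k : ℕ} (hk : 1 ≤ k) (hk2 : k < N) :
    I N i k ∩ I N (i + 1) k = I N (i + 1) (k - 1) := by
  ext x
  simp only [mem_inter, mem_I]
  constructor
  · rintro ⟨⟨m, hm, rfl⟩, ⟨m', hm', h⟩⟩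
    have h1 : ((m' + 1 : ℕ) : ZMod N) = m := by
      push_cast
      have : i + 1 + (m' : ZMod N) = i + ((m' : ZMod N) + 1) := by ring
      rw [this] at h
      exact add_left_cancel h
    have h2 : m' + 1 = m := cast_inj (by lia) (by lia) h1
    exact ⟨m', by lia, h⟩
  · rintro ⟨m, hm, rfl⟩
    exact ⟨⟨m + 1, by lia, by push_cast; ring⟩, ⟨m, by lia, rfl⟩⟩

end cyc

/-! ### The finite inequality -/

/-- For a submodular function `g` on the subsets of `ZMod N`, `N = 2n`, bounded by `b`, such that adding the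
indicator function of the sets with more than `n` elements preserves submodularity, `n ≤ 4 b`. -/
theorem finite_bound {n N : ℕ} (hn : 0 < n) (hN : N = 2 * n) [NeZero N]
    (g g' : Finset (ZMod N) → ℝ) {b : ℝ}
    (hb : ∀ X, |g X| ≤ b)
    (hg : ∀ X Y, g (X ∩ Y) + g (X ∪ Y) ≤ g X + g Y)
    (hg' : ∀ X Y, g' (X ∩ Y) + g' (X ∪ Y) ≤ g' X + g' Y)
    (hd : ∀ X, g' X = g X + if n < X.card then 1 else 0) : (n : ℝ) ≤ 4 * b := by
  -- averages over cyclic intervals (times `N`)
  set H : ℕ → ℝ := fun k => ∑ i : ZMod N, g (I N i k) with hH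
  set H' : ℕ → ℝ := fun k => ∑ i : ZMod N, g' (I N i k) with hH'
  have shift : ∀ (f : Finset (ZMod N) → ℝ) (k : ℕ),
      ∑ i : ZMod N, f (I N (i + 1) k) = ∑ i : ZMod N, f (I N i k) := fun f k =>
    Equiv.sum_comp (Equiv.addRight (1 : ZMod N)) fun i => f (I N i k)
  have conc : ∀ (f : Finset (ZMod N) → ℝ),
      (∀ X Y, f (X ∩ Y) + f (X ∪ Y) ≤ f X + f Y) → ∀ k, 1 ≤ k → k < N →
      (∑ i : ZMod N, f (I N i (k - 1))) + ∑ i : ZMod N, f (I N i (k + 1)) ≤
        2 * ∑ i : ZMod N, f (I N i k) := by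
    intro f hf k hk hkN
    have h1 : ∑ i : ZMod N, (f (I N i k ∩ I N (i + 1) k) + f (I N i k ∪ I N (i + 1) k)) ≤
        ∑ i : ZMod N, (f (I N i k) + f (I N (i + 1) k)) := sum_le_sum fun i _ => hf _ _
    rw [sum_add_distrib, sum_add_distrib, shift] at h1
    simp only [I_union _ hk, I_inter _ hk hkN] at h1
    rw [shift] at h1
    linarith
  have hcardN : (Fintype.card (ZMod N) : ℝ) = N := by rw [ZMod.card]
  have hHH : ∀ k, k ≤ N → H' k = H k + if n < k then (N : ℝ) else 0 := by
    intro k hk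
    simp only [hH', hH, hd, sum_add_distrib, card_I _ hk]
    congr 1
    split_ifs with h
    · simp [ZMod.card]
    · simp
  -- slopes
  have slope : ∀ k, 1 ≤ k → k < N → H (k + 1) - H k ≤ H k - H (k - 1) := by
    intro k hk hkN
    have := conc g hg k hk hkN
    simp only [hH]
    linarith
  have kink : H (n + 1) - H n + N ≤ H n - H (n - 1) := by
    have := conc g' hg' n (by lia) (by lia)
    have e1 := hHH (n - 1) (by lia)
    have e2 := hHH n (by lia)
    have e3 := hHH (n + 1) (by lia)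
    rw [if_neg (by lia)] at e1
    rw [if_neg (by lia)] at e2
    rw [if_pos (by lia)] at e3
    simp only [hH'] at e1 e2 e3
    rw [e1, e2, e3] at this
    linarith
  have hbound : ∀ k, |H k| ≤ N * b := by
    intro k
    calc |H k| ≤ ∑ i : ZMod N, |g (I N i k)| := abs_sum_le_sum_abs _ _
      _ ≤ ∑ _i : ZMod N, b := sum_le_sum fun i _ => hb _
      _ = N * b := by simp [ZMod.card]
  -- slopes before `n`
  have left : ∀ j, j < n → H n - H (n - 1) ≤ H (n - j) - H (n - j - 1) := by
    intro j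
    induction j with
    | zero => intro _; simp
    | succ j ih =>
      intro hj
      refine (ih (by lia)).trans ?_
      have := slope (n - (j + 1)) (by lia) (by lia)
      have e : n - (j + 1) + 1 = n - j := by lia
      have e2 : n - j - 1 = n - (j + 1) := by lia
      rw [e] at this
      rw [e2]
      exact this
  have right : ∀ j, n + j < N → H (n + j + 1) - H (n + j) ≤ H (n + 1) - H n := by
    intro j
    induction j with
    | zero => intro _; simp
    | succ j ih =>
      intro hj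
      refine le_trans ?_ (ih (by lia))
      have := slope (n + j + 1) (by lia) (by lia)
      have e : n + j + 1 - 1 = n + j := by lia
      rw [e] at this
      exact this
  have left' : ∀ j, j ≤ n → j * (H n - H (n - 1)) ≤ H n - H (n - j) := by
    intro j
    induction j with
    | zero => intro _; simp
    | succ j ih =>
      intro hj
      have h1 := ih (by lia)
      have h2 := left j (by lia)
      have e2 : n - j - 1 = n - (j + 1) := by lia
      rw [e2] at h2
      push_cast
      linarith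
  have right' : ∀ j, j ≤ n → H (n + j) - H n ≤ j * (H (n + 1) - H n) := by
    intro j
    induction j with
    | zero => intro _; simp
    | succ j ih =>
      intro hj
      have h1 := ih (by lia)
      have h2 := right j (by lia)
      push_cast
      rw [← add_assoc n j 1]
      linarith
  have hl := left' n le_rfl
  have hr := right' n le_rfl
  have b1 := abs_le.mp (hbound n)
  have b2 := abs_le.mp (hbound (n - n))
  have b3 := abs_le.mp (hbound (n + n))
  have hNpos : (0 : ℝ) < N := by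
    have : 0 < N := by lia
    exact_mod_cast this
  have hnpos : (0 : ℝ) < n := by exact_mod_cast hn
  have h1 : (n : ℝ) * N ≤ (4 * b) * N := by
    have := mul_le_mul_of_nonneg_left kink hnpos.le
    linarith
  exact le_of_mul_le_mul_right h1 hNpos

/-! ### The example -/

/-- the set of points of the `n`-th block with index set `T` -/
def blk (n : ℕ) [NeZero (2 * n)] (T : Finset (ZMod (2 * n))) : Set (ℕ × ℕ) :=
  {p | p.1 = n ∧ ∃ t ∈ T, p.2 = t.val}

/-- number of points of `X` in the `n`-th block -/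
noncomputable def cnt (n : ℕ) (X : Set (ℕ × ℕ)) : ℕ :=
  open scoped Classical in ((range (2 * n)).filter fun j => (n, j) ∈ X).card

/-- `1` if `X` contains more than half of some block, `0` otherwise -/
noncomputable def φ (X : Set (ℕ × ℕ)) : ℝ :=
  open scoped Classical in if ∃ n, n < cnt n X then 1 else 0

theorem cnt_mono {n : ℕ} {X Y : Set (ℕ × ℕ)} (h : X ⊆ Y) : cnt n X ≤ cnt n Y := by
  classical
  apply card_le_card
  intro j hj
  rw [mem_filter] at hj ⊢
  exact ⟨hj.1, h hj.2⟩

theorem φ_mono {X Y : Set (ℕ × ℕ)} (h : X ⊆ Y) : φ X ≤ φ Y := by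
  classical
  unfold φ
  by_cases h1 : ∃ n, n < cnt n X
  · have h2 : ∃ n, n < cnt n Y := by
      obtain ⟨n, hn⟩ := h1
      exact ⟨n, hn.trans_le (cnt_mono h)⟩
    rw [if_pos h1, if_pos h2]
  · rw [if_neg h1]
    split_ifs <;> norm_num

theorem cnt_blk {n m : ℕ} [NeZero (2 * n)] (T : Finset (ZMod (2 * n))) :
    cnt m (blk n T) = if m = n then T.card else 0 := by
  classical
  split_ifs with h
  · subst h
    have : ((range (2 * m)).filter fun j => (m, j) ∈ blk m T) = T.image fun t => t.val := by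
      ext j
      simp only [mem_filter, mem_range, mem_image, blk, Set.mem_ofPred_eq]
      constructor
      · rintro ⟨_, _, t, ht, rfl⟩
        exact ⟨t, ht, rfl⟩
      · rintro ⟨t, ht, rfl⟩
        exact ⟨ZMod.val_lt t, trivial, t, ht, rfl⟩
    rw [cnt, this, card_image_of_injective _ (ZMod.val_injective _)]
  · rw [cnt, card_eq_zero, filter_eq_empty_iff]
    intro j _ hj
    exact h hj.1

theorem φ_blk {n : ℕ} [NeZero (2 * n)] (T : Finset (ZMod (2 * n))) :
    φ (blk n T) = if n < T.card then 1 else 0 := by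
  classical
  unfold φ
  congr 1
  apply propext
  constructor
  · rintro ⟨m, hm⟩
    rw [cnt_blk] at hm
    split_ifs at hm with h
    · subst h; exact hm
    · lia
  · intro h
    exact ⟨n, by rw [cnt_blk, if_pos rfl]; exact h⟩

theorem blk_union {n : ℕ} [NeZero (2 * n)] (S T : Finset (ZMod (2 * n))) :
    blk n (S ∪ T) = blk n S ∪ blk n T := by
  ext p
  simp only [blk, Set.mem_ofPred_eq, mem_union, Set.mem_union]
  constructor
  · rintro ⟨h, t, ht | ht, e⟩
    · exact Or.inl ⟨h, t, ht, e⟩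
    · exact Or.inr ⟨h, t, ht, e⟩
  · rintro (⟨h, t, ht, e⟩ | ⟨h, t, ht, e⟩)
    · exact ⟨h, t, Or.inl ht, e⟩
    · exact ⟨h, t, Or.inr ht, e⟩

theorem blk_inter {n : ℕ} [NeZero (2 * n)] (S T : Finset (ZMod (2 * n))) :
    blk n (S ∩ T) = blk n S ∩ blk n T := by
  ext p
  simp only [blk, Set.mem_ofPred_eq, mem_inter, Set.mem_inter_iff]
  constructor
  · rintro ⟨h, t, ⟨h1, h2⟩, e⟩
    exact ⟨⟨h, t, h1, e⟩, ⟨h, t, h2, e⟩⟩
  · rintro ⟨⟨h, t, h1, e⟩, ⟨_, t', h2, e'⟩⟩
    have : t = t' := ZMod.val_injective _ (e.symm.trans e')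
    subst this
    exact ⟨h, t, ⟨h1, h2⟩, e⟩

theorem not_difference {ψ₁ ψ₂ : Set (ℕ × ℕ) → ℝ}
    (h1 : ∀ X Y, ψ₁ (X ∩ Y) + ψ₁ (X ∪ Y) ≤ ψ₁ X + ψ₁ Y)
    (h2 : ∀ X Y, ψ₂ (X ∩ Y) + ψ₂ (X ∪ Y) ≤ ψ₂ X + ψ₂ Y)
    {b : ℝ} (hb : ∀ X, |ψ₂ X| ≤ b) (hφ : ∀ X, φ X = ψ₁ X - ψ₂ X) : False := by
  obtain ⟨n, hn⟩ := exists_nat_gt (4 * b)
  have hb0 : 0 ≤ b := (abs_nonneg _).trans (hb ∅)
  have hn0 : 0 < n := by
    have : (0 : ℝ) < n := by linarith
    exact_mod_cast this
  have : NeZero (2 * n) := ⟨by lia⟩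
  have := finite_bound hn0 rfl (fun T => ψ₂ (blk n T)) (fun T => ψ₁ (blk n T)) (b := b)
    (fun X => hb _) (fun X Y => by simp only [blk_union, blk_inter]; exact h2 _ _)
    (fun X Y => by simp only [blk_union, blk_inter]; exact h1 _ _)
    (fun X => by
      have := hφ (blk n X)
      rw [φ_blk] at this
      linarith)
  linarith

/-- On the set algebra of all subsets of the countable set `ℕ × ℕ` there is a set function of
bounded variation (even an increasing one, with values `0` and `1`) which is not the difference of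
two bounded submodular set functions. -/
theorem result : ∃ (J : Type) (B : Set (Set J)) (φ : Set J → ℝ), IsSetAlgebra B ∧
    BoundedVariation B φ ∧ ¬ ∃ ψ₁ ψ₂ : Set J → ℝ, Bounded B ψ₁ ∧ Submodular B ψ₁ ∧
      Bounded B ψ₂ ∧ Submodular B ψ₂ ∧ ∀ X ∈ B, φ X = ψ₁ X - ψ₂ X := by
  refine ⟨ℕ × ℕ, Set.univ, φ, ⟨trivial, fun _ _ => trivial, fun _ _ _ _ => trivial⟩,
    ⟨φ, fun _ => 0, fun X _ Y _ h => φ_mono h, fun _ _ _ _ _ => le_rfl, fun X _ => by simp⟩, ?_⟩
  rintro ⟨ψ₁, ψ₂, _, hs1, ⟨b, hb⟩, hs2, hφ⟩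
  exact not_difference (fun X Y => hs1 X trivial Y trivial) (fun X Y => hs2 X trivial Y trivial)
    (fun X => hb X trivial) (fun X => hφ X trivial)

end Pool.Agent.Results.MP_2db6a9_co.ThresholdBlocks
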